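import Pool.Agent.H7.FactProof

set_option autoImplicit false

namespace Pool.Agent.Results.MP_5a4a69_co.Seven

/-- A perfect matching of the complete graph, given by its partner map. -/
def IsPM {N : ℕ} (m : Fin N → Fin N) : Prop := ∀ u, m (m u) = u ∧ m u ≠ u

theorem result : ∃ (n : ℕ) (D : Finset (Fin (2 * n) → Fin (2 * n))) (c : ℕ),
    4 ≤ n ∧ 0 < c ∧ D.Nonempty ∧ (∀ m ∈ D, IsPM m) ∧ (∃ m, IsPM m ∧ m ∉ D) ∧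
    ∀ a₁ b₁ a₂ b₂ a₃ b₃ : Fin (2 * n), [a₁, b₁, a₂, b₂, a₃, b₃].Nodup →
      (D.filter (fun m => m a₁ = b₁ ∧ m a₂ = b₂ ∧ m a₃ = b₃)).card = c :=
  ⟨7, H7.Fact.D, 12, by norm_num, by norm_num,
    ⟨_, Finset.mem_image.2 ⟨0, by simp, rfl⟩⟩, H7.Fact.D_pm, ⟨_, H7.Fact.D_miss⟩, H7.Fact.D_tri⟩

end Pool.Agent.Results.MP_5a4a69_co.Seven
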